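import Pool.Agent.MP_b30265_an.Trig

open MeasureTheory Filter Topology Real

noncomputable section

namespace Pool.Agent.MP_b30265_an

lemma ac_of_bound {μ ν : Measure Tc} [IsFiniteMeasure μ] [IsFiniteMeasure ν] (C : ℝ)
    (h : ∀ η : ℝ, 0 < η → ∀ f : C(Tc, ℝ), (∀ x, 0 ≤ f x) → (∀ x, f x ≤ 1) →
      ∫ x, f x ∂μ ≤ η * C + (1 / η) * ∫ x, f x ∂ν) : μ ≪ ν := by
  have hclosed : ∀ K : Set Tc, IsClosed K → ν K = 0 → μ K = 0 := by
    intro K hK hνK
    have hpos : ∀ n : ℕ, (0 : ℝ) < 1 / ((n : ℝ) + 1) := fun n => by positivity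
    have t1 := tendsto_integral_thickenedIndicator_of_isClosed μ hK hpos
      tendsto_one_div_add_atTop_nhds_zero_nat
    have t2 := tendsto_integral_thickenedIndicator_of_isClosed ν hK hpos
      tendsto_one_div_add_atTop_nhds_zero_nat
    have hν0 : ν.real K = 0 := by simp [Measure.real, hνK]
    rw [hν0] at t2
    have hle : ∀ η : ℝ, 0 < η → μ.real K ≤ η * C := by
      intro η hη
      have t3 := (t2.const_mul (1 / η)).const_add (η * C)
      simp only [mul_zero, add_zero] at t3
      refine le_of_tendsto_of_tendsto' t1 t3 fun n => ?_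
      let f : C(Tc, ℝ) := ⟨fun x => (thickenedIndicator (hpos n) K x : ℝ),
        NNReal.continuous_coe.comp (thickenedIndicator (hpos n) K).continuous⟩
      refine h η hη f (fun x => NNReal.coe_nonneg _) (fun x => ?_)
      change ((thickenedIndicator (hpos n) K x : NNReal) : ℝ) ≤ 1
      exact_mod_cast thickenedIndicator_le_one (hpos n) K x
    have h0 : μ.real K ≤ 0 := by
      have t4 : Tendsto (fun n : ℕ => (1 / ((n : ℝ) + 1)) * C) atTop (𝓝 (0 * C)) :=
        tendsto_one_div_add_atTop_nhds_zero_nat.mul_const C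
      rw [zero_mul] at t4
      exact ge_of_tendsto' t4 fun n => hle _ (hpos n)
    have h1 : μ.real K = 0 := le_antisymm h0 measureReal_nonneg
    rwa [measureReal_eq_zero_iff] at h1
  refine Measure.AbsolutelyContinuous.mk fun A hA hνA => ?_
  by_contra hne
  obtain ⟨K, hKA, hK, hpos⟩ := hA.exists_lt_isClosed_of_ne_top (measure_ne_top μ A)
    (pos_iff_ne_zero.2 hne)
  rw [hclosed K hK (measure_mono_null hKA hνA)] at hpos
  exact lt_irrefl _ hpos

lemma singular_of_test {μ ν : Measure Tc} [IsProbabilityMeasure μ] [IsProbabilityMeasure ν]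
    (h : ∀ η : ℝ, 0 < η → ∃ f : C(Tc, ℝ), (∀ x, 0 ≤ f x) ∧ (∀ x, f x ≤ 1) ∧
      1 - η ≤ ∫ x, f x ∂μ ∧ ∫ x, f x ∂ν ≤ η) : μ ⟂ₘ ν := by
  choose f f0 f1 fμ fν using fun j : ℕ => h ((1 / 2) ^ j) (by positivity)
  let A : ℕ → Set Tc := fun j => {x | 1 / 2 ≤ f j x}
  have hA : ∀ j, MeasurableSet (A j) := fun j =>
    (isClosed_le continuous_const (f j).continuous).measurableSet
  have hνA : ∀ j, ν.real (A j) ≤ 2 * (1 / 2) ^ j := by
    intro j
    have := mul_meas_ge_le_integral_of_nonneg (μ := ν) (f := f j) (Eventually.of_forall (f0 j))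
      (integrable_of_continuous _ (f j).continuous) (1 / 2)
    have h2 := fν j
    change 1 / 2 * ν.real (A j) ≤ _ at this
    linarith
  have hμA : ∀ j, μ.real (A j)ᶜ ≤ 2 * (1 / 2) ^ j := by
    intro j
    have := mul_meas_ge_le_integral_of_nonneg (μ := μ) (f := fun x => 1 - f j x)
      (Eventually.of_forall fun x => sub_nonneg.2 (f1 j x))
      (integrable_of_continuous _ (continuous_const.fun_sub (f j).continuous)) (1 / 2)
    rw [integral_sub (integrable_const _) (integrable_of_continuous _ (f j).continuous)] at this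
    have h2 := fμ j
    have h3 : μ.real (A j)ᶜ ≤ μ.real {x | 1 / 2 ≤ 1 - f j x} := by
      refine measureReal_mono fun x hx => ?_
      simp only [A, Set.mem_compl_iff, Set.mem_ofPred_eq, not_le] at hx ⊢
      linarith
    simp only [integral_const, probReal_univ, smul_eq_mul, mul_one] at this
    linarith
  have hsum : ∀ (ρ : Measure Tc) [IsFiniteMeasure ρ] (B : ℕ → Set Tc),
      (∀ j, ρ.real (B j) ≤ 2 * (1 / 2) ^ j) → ρ (limsup B atTop) = 0 := by
    intro ρ _ B hB
    apply measure_limsup_atTop_eq_zero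
    have hs : Summable (fun j : ℕ => (2 : ℝ) * (1 / 2) ^ j) :=
      summable_geometric_two.mul_left 2
    have h1 : ∑' j, ρ (B j) ≤ ∑' j, ENNReal.ofReal ((2 : ℝ) * (1 / 2) ^ j) := by
      refine ENNReal.tsum_le_tsum fun j => ?_
      rw [← ofReal_measureReal (measure_ne_top ρ (B j))]
      exact ENNReal.ofReal_le_ofReal (hB j)
    rw [← ENNReal.ofReal_tsum_of_nonneg (fun j => by positivity) hs] at h1
    exact ne_top_of_le_ne_top ENNReal.ofReal_ne_top h1
  have hν0 := hsum ν A hνA
  have hμ0 := hsum μ (fun j => (A j)ᶜ) hμA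
  refine ⟨(limsup A atTop)ᶜ, (MeasurableSet.measurableSet_limsup hA).compl, ?_, ?_⟩
  · refine measure_mono_null (fun x hx => ?_) hμ0
    rw [Set.mem_compl_iff, mem_limsup_iff_frequently_mem, not_frequently] at hx
    rw [mem_limsup_iff_frequently_mem]
    exact hx.frequently
  · rwa [compl_compl]

end Pool.Agent.MP_b30265_an
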