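import Pool.Agent.MP_b30265_an.Blocks
import Pool.Agent.MP_b30265_an.Crit

open MeasureTheory Filter Topology Real

noncomputable section

namespace Pool.Agent.MP_b30265_an

lemma one_add_mul_pos {b c : ℝ} (hb : |b| < 1) (hc : |c| ≤ 1) : 0 < 1 + b * c := by
  have h1 : |b * c| < 1 := by
    rw [abs_mul]
    exact lt_of_le_of_lt (mul_le_of_le_one_right (abs_nonneg _) hc) hb
  linarith [neg_abs_le (b * c)]

lemma blk_pos {b g : ℝ} (hb : |b| < 1) (hg : |g| < 1) (y : Tc) : 0 < blk b g y :=
  mul_pos (one_add_mul_pos hb (abs_cs_le _ _)) (one_add_mul_pos hg (abs_cs_le _ _))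

lemma le_of_sq_le_mul {x T y η : ℝ} (hT : 0 ≤ T) (hy : 0 ≤ y) (hη : 0 < η) (h : x ^ 2 ≤ T * y) :
    x ≤ η * T + (1 / η) * y := by
  have h0 : 0 ≤ η * T + (1 / η) * y := by positivity
  refine le_trans (le_abs_self x) (abs_le_of_sq_le_sq' ?_ h0 |> fun h => abs_le.2 h)
  have h1 : (η * T) * ((1 / η) * y) = T * y := by field_simp
  have h2 : 0 ≤ T * y := mul_nonneg hT hy
  nlinarith [sq_nonneg (η * T), sq_nonneg ((1 / η) * y)]

lemma ac_blocks {A B G e : ℕ → ℝ} (hB : ∀ k, |B k| < 1)
    (hG : ∀ k, |G k| < 1) (he0 : ∀ k, 0 ≤ e k) (he : Summable e)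
    (hkey : ∀ k (y : Tc), ((A k - B k) * cs 1 y) ^ 2 * (1 + G k * cs 3 y)
      ≤ e k * (1 + B k * cs 1 y))
    {μ ν : Measure Tc} (hμ : IsLim (coef A G) μ) (hν : IsLim (coef B G) ν) : μ ≪ ν := by
  have := hμ.1
  have := hν.1
  let T : ℕ → Tc → ℝ := fun k y => blk (2 * A k - B k) (G k) y + e k
  have hT : ∀ k, TP 1 4 (T k) := fun k => (TP_blk _ _).add (TP.const _ _ _)
  have hTint : ∀ k, ∫ y, T k y ∂hm = 1 + e k := by
    intro k
    simp only [T]
    rw [integral_add (integrable_of_continuous _ (TP_blk _ _).continuous) (integrable_const _),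
      integral_blk]
    simp
  have hsq : ∀ k y, blk (A k) (G k) y ^ 2 ≤ T k y * blk (B k) (G k) y := by
    intro k y
    have h1 := hkey k y
    have hw := one_add_mul_pos (hG k) (abs_cs_le 3 y)
    have h2 := mul_le_mul_of_nonneg_right h1 hw.le
    simp only [T, blk]
    nlinarith
  have hT0 : ∀ k y, 0 ≤ T k y := by
    intro k y
    have h1 := hsq k y
    have h2 := blk_pos (hB k) (hG k) y
    by_contra hneg
    push Not at hneg
    have := mul_neg_of_neg_of_pos hneg h2
    nlinarith [sq_nonneg (blk (A k) (G k) y)]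
  refine ac_of_bound (Real.exp (∑' k, e k)) fun η hη f f0 f1 => ?_
  have t1 := (hμ.2 f).comp tendsto_sq
  have t2 := (((hν.2 f).comp tendsto_sq).const_mul (1 / η)).const_add
    (η * Real.exp (∑' k, e k))
  refine le_of_tendsto_of_tendsto' t1 t2 fun K => ?_
  simp only [Function.comp]
  obtain ⟨⟨E, -, hE⟩, hI⟩ := block_indep T (fun _ => 4) hT (fun k => by
    have : 3 ^ 3 ≤ 3 ^ (2 * k + 3) := Nat.pow_le_pow_right (by norm_num) (by omega)
    omega) K
  have hexp : ∏ k ∈ Finset.range K, ∫ x, T k x ∂hm ≤ Real.exp (∑' k, e k) := by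
    simp only [hTint]
    refine (Real.prod_one_add_le_exp_sum _ he0).trans ?_
    exact Real.exp_le_exp.2 (he.sum_le_tsum _ fun k _ => he0 k)
  have cA := (TP_PP (coef A G) ((K + 1) ^ 2)).continuous
  have cB := (TP_PP (coef B G) ((K + 1) ^ 2)).continuous
  calc ∫ x, f x * PP (coef A G) ((K + 1) ^ 2) x ∂hm
      ≤ ∫ x, (η * ∏ k ∈ Finset.range K, T k ((Lam k : ℤ) • x)
          + (1 / η) * (f x * PP (coef B G) ((K + 1) ^ 2) x)) ∂hm := by
        refine integral_mono (integrable_of_continuous _ (f.continuous.fun_mul cA))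
          (integrable_of_continuous _ ((continuous_const.fun_mul hE.continuous).fun_add
            (continuous_const.fun_mul (f.continuous.fun_mul cB)))) fun x => ?_
        simp only
        rw [PP_pos, PP_pos]
        have p1 : 0 ≤ ∏ k ∈ Finset.range K, T k ((Lam k : ℤ) • x) :=
          Finset.prod_nonneg fun k _ => hT0 _ _
        have p2 : 0 ≤ ∏ k ∈ Finset.range K, blk (B k) (G k) ((Lam k : ℤ) • x) :=
          Finset.prod_nonneg fun k _ => (blk_pos (hB k) (hG k) _).le
        have p3 : (∏ k ∈ Finset.range K, blk (A k) (G k) ((Lam k : ℤ) • x)) ^ 2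
            ≤ (∏ k ∈ Finset.range K, T k ((Lam k : ℤ) • x))
              * ∏ k ∈ Finset.range K, blk (B k) (G k) ((Lam k : ℤ) • x) := by
          rw [← Finset.prod_pow, ← Finset.prod_mul_distrib]
          exact Finset.prod_le_prod (fun k _ => sq_nonneg _) fun k _ => hsq _ _
        have p4 := mul_le_mul_of_nonneg_left (le_of_sq_le_mul p1 p2 hη p3) (f0 x)
        have p5 : f x * (η * ∏ k ∈ Finset.range K, T k ((Lam k : ℤ) • x))
            ≤ η * ∏ k ∈ Finset.range K, T k ((Lam k : ℤ) • x) :=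
          mul_le_of_le_one_left (mul_nonneg hη.le p1) (f1 x)
        nlinarith
    _ = η * ∏ k ∈ Finset.range K, ∫ x, T k x ∂hm
          + (1 / η) * ∫ x, f x * PP (coef B G) ((K + 1) ^ 2) x ∂hm := by
        rw [integral_add (integrable_of_continuous _ (continuous_const.fun_mul hE.continuous))
          (integrable_of_continuous _ (continuous_const.fun_mul (f.continuous.fun_mul cB))),
          integral_const_mul, integral_const_mul, hI]
    _ ≤ _ := by
        have := mul_le_mul_of_nonneg_left hexp hη.le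
        linarith

end Pool.Agent.MP_b30265_an
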