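import Pool.Agent.MP_b30265_an.Exist

open MeasureTheory Filter Topology Real

noncomputable section

namespace Pool.Agent.MP_b30265_an

/-- coefficient sequence: `A k` at index `(k+1)^2`, `G k` at index `(k+1)^2+1`, zero elsewhere -/
def coef (A G : ℕ → ℝ) (n : ℕ) : ℝ :=
  if n = 0 then 0 else if n = (Nat.sqrt n) ^ 2 then A (Nat.sqrt n - 1)
  else if n = (Nat.sqrt n) ^ 2 + 1 then G (Nat.sqrt n - 1) else 0

def Lam (k : ℕ) : ℕ := 3 ^ ((k + 1) ^ 2)

def blk (α γ : ℝ) (y : Tc) : ℝ := (1 + α * cs 1 y) * (1 + γ * cs 3 y)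

lemma coef_at (A G : ℕ → ℝ) (k i : ℕ) (hi : i ≤ 2 * k + 2) :
    coef A G ((k + 1) ^ 2 + i) = if i = 0 then A k else if i = 1 then G k else 0 := by
  have hs : Nat.sqrt ((k + 1) ^ 2 + i) = k + 1 := Nat.sqrt_add_eq' (k + 1) (by omega)
  unfold coef
  rw [hs, if_neg (by positivity)]
  simp

lemma PP_pos (A G : ℕ → ℝ) (K : ℕ) (x : Tc) :
    PP (coef A G) ((K + 1) ^ 2) x = ∏ k ∈ Finset.range K, blk (A k) (G k) ((Lam k : ℤ) • x) := by
  induction K with
  | zero => simp [PP, coef]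
  | succ K ih =>
    rw [Finset.prod_range_succ, ← ih]
    have e : (K + 1 + 1) ^ 2 = (K + 1) ^ 2 + ((2 * K + 1) + 1 + 1) := by ring
    unfold PP
    rw [e, Finset.prod_range_add]
    congr 1
    rw [Finset.prod_range_succ', Finset.prod_range_succ', Finset.prod_eq_one, one_mul]
    · rw [coef_at A G K (0 + 1) (by omega), coef_at A G K 0 (by omega)]
      simp only [blk, cs_smul, Lam]
      simp [pow_succ, mul_comm]
    · intro i hi
      rw [Finset.mem_range] at hi
      rw [coef_at A G K (i + 1 + 1) (by omega)]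
      simp

lemma Lam_pos (k : ℕ) : 0 < Lam k := by unfold Lam; positivity

lemma Lam_succ (k : ℕ) : Lam (k + 1) = 3 ^ (2 * k + 3) * Lam k := by
  unfold Lam
  rw [← pow_add]
  congr 1
  ring

lemma block_indep (g : ℕ → Tc → ℝ) (d : ℕ → ℕ) (hg : ∀ k, TP 1 (d k) (g k))
    (hd : ∀ k, d k + 1 ≤ 3 ^ (2 * k + 3)) (K : ℕ) :
    (∃ E, E < Lam K ∧ TP 1 E (fun x => ∏ k ∈ Finset.range K, g k ((Lam k : ℤ) • x))) ∧
      ∫ x, ∏ k ∈ Finset.range K, g k ((Lam k : ℤ) • x) ∂hm
        = ∏ k ∈ Finset.range K, ∫ x, g k x ∂hm := by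
  induction K with
  | zero =>
    refine ⟨⟨0, Lam_pos 0, ?_⟩, by simp⟩
    simpa using TP.const 1 0 1
  | succ K ih =>
    obtain ⟨⟨E, hE, hT⟩, hI⟩ := ih
    have h1 := (hg K).scale (Lam K)
    refine ⟨⟨E + d K * Lam K, ?_, ?_⟩, ?_⟩
    · rw [Lam_succ]
      have := Nat.mul_le_mul_right (Lam K) (hd K)
      nlinarith
    · simp only [Finset.prod_range_succ]
      exact hT.mul (h1.mono (one_dvd _) le_rfl)
    · simp only [Finset.prod_range_succ]
      rw [hT.indep h1 hE, hI, integral_scale (Lam_pos K).ne' (hg K).continuous]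

lemma TP_blk (α γ : ℝ) : TP 1 4 (blk α γ) := by
  have h1 : TP 1 1 (fun x => 1 + α * cs 1 x) := TP_factor α 1
  have h2 : TP 1 3 (fun x => 1 + γ * cs 3 x) := TP.mono (one_dvd 3) le_rfl (TP_factor γ 3)
  have h3 := TP.mul h1 h2
  unfold blk
  exact h3

lemma integral_blk (α γ : ℝ) : ∫ x, blk α γ x ∂hm = 1 := by
  have := (TP_factor α 1).indep (TP_factor γ 3) (by norm_num)
  rw [integral_factor _ (by norm_num), integral_factor _ (by norm_num), mul_one] at this
  exact this

lemma tendsto_sq : Tendsto (fun K : ℕ => (K + 1) ^ 2) atTop atTop := by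
  refine tendsto_atTop_mono (fun K => ?_) tendsto_id
  simp only [id]
  nlinarith

/-- integral of a product of block test functions against the limit measure -/
lemma integral_test {A G : ℕ → ℝ} {μ : Measure Tc} (hμ : IsLim (coef A G) μ)
    (h : ℕ → Tc → ℝ) (d : ℕ → ℕ) (hh : ∀ k, TP 1 (d k) (h k))
    (hd : ∀ k, d k + 5 ≤ 3 ^ (2 * k + 3)) (K : ℕ) :
    ∫ x, ∏ k ∈ Finset.range K, h k ((Lam k : ℤ) • x) ∂μ
      = ∏ k ∈ Finset.range K, ∫ x, h k x * blk (A k) (G k) x ∂hm := by
  have hc : Continuous (fun x : Tc => ∏ k ∈ Finset.range K, h k ((Lam k : ℤ) • x)) :=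
    continuous_finsetProd _ fun k _ => ((hh k).scale (Lam k)).continuous
  let f : C(Tc, ℝ) := ⟨_, hc⟩
  have t1 := (hμ.2 f).comp tendsto_sq
  refine tendsto_nhds_unique t1 (tendsto_const_nhds.congr' ?_)
  filter_upwards [eventually_ge_atTop K] with M hM
  obtain ⟨J, rfl⟩ := Nat.exists_eq_add_of_le hM
  let g : ℕ → Tc → ℝ := fun k x => (if k < K then h k x else 1) * blk (A k) (G k) x
  have hg : ∀ k, TP 1 (d k + 4) (g k) := by
    intro k
    refine TP.mul ?_ (TP_blk _ _)
    by_cases hk : k < K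
    · simpa [hk] using hh k
    · simpa [hk] using TP.const 1 (d k) 1
  have h2 := (block_indep g (fun k => d k + 4) hg (fun k => hd k) (K + J)).2
  have h3 : ∏ k ∈ Finset.range (K + J), ∫ x, g k x ∂hm
      = ∏ k ∈ Finset.range K, ∫ x, h k x * blk (A k) (G k) x ∂hm := by
    rw [Finset.prod_range_add, Finset.prod_eq_one (s := Finset.range J), mul_one]
    · refine Finset.prod_congr rfl fun k hk => ?_
      rw [Finset.mem_range] at hk
      simp [g, hk]
    · intro i _
      simp [g, integral_blk]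
  rw [← h3, ← h2]
  simp only [Function.comp]
  congr 1
  ext x
  rw [PP_pos]
  simp only [g, Finset.prod_mul_distrib, f, ContinuousMap.coe_mk]
  congr 1
  rw [Finset.prod_range_add, Finset.prod_eq_one (s := Finset.range J), mul_one]
  · refine Finset.prod_congr rfl fun k hk => ?_
    rw [Finset.mem_range] at hk
    simp [hk]
  · intro i _
    simp

end Pool.Agent.MP_b30265_an
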