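import Mathlib

open MeasureTheory Filter Topology Real

namespace Pool.Agent.MP_b30265_an

/-- `μ` is the Riesz product with frequencies `lam`, coefficients `a` and phases `φ`:
a finite positive measure on the circle `ℝ / 2πℤ` that is the weak-* limit of the measures
`∏_{n < N} (1 + Re (a n * exp (i (lam n * x + φ n)))) dx / 2π`. -/
def IsRieszProduct (lam : ℕ → ℕ) (a : ℕ → ℂ) (φ : ℕ → ℝ)
    (μ : Measure (AddCircle (2 * π))) : Prop :=
  IsFiniteMeasure μ ∧
    ∀ f : C(AddCircle (2 * π), ℝ),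
      Tendsto
        (fun N : ℕ => (1 / (2 * π)) * ∫ x in (0 : ℝ)..(2 * π),
          f (x : AddCircle (2 * π)) * ∏ n ∈ Finset.range N,
            (1 + (a n * Complex.exp (Complex.I * ((lam n : ℂ) * (x : ℂ) + (φ n : ℂ)))).re))
        atTop (𝓝 (∫ y, f y ∂μ))

end Pool.Agent.MP_b30265_an
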