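import Pool.Agent.MP_b30265_an.Trig

open MeasureTheory Filter Topology Real

noncomputable section

namespace Pool.Agent.MP_b30265_an

/-- finite Riesz product with real coefficients and frequencies `3 ^ n` -/
def PP (r : ℕ → ℝ) (N : ℕ) (x : Tc) : ℝ := ∏ n ∈ Finset.range N, (1 + r n * cs (3 ^ n) x)

def DD (N : ℕ) : ℕ := ∑ n ∈ Finset.range N, 3 ^ n

lemma DD_eq (N : ℕ) : 2 * DD N + 1 = 3 ^ N := by
  induction N with
  | zero => simp [DD]
  | succ N ih =>
    unfold DD at *
    rw [Finset.sum_range_succ, pow_succ]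
    omega

lemma TP_factor (c : ℝ) (n : ℕ) : TP n n (fun x => 1 + c * cs n x) :=
  (TP.const n n 1).add ((TP.cs n).smul c)

lemma integral_factor (c : ℝ) {n : ℕ} (hn : n ≠ 0) : ∫ x, (1 + c * cs n x) ∂hm = 1 := by
  rw [integral_add (integrable_const _)
    (integrable_of_continuous _ (continuous_const.fun_mul (TP.cs n).continuous)),
    integral_const_mul, integral_cs hn]
  simp

lemma TP_PP (r : ℕ → ℝ) (N : ℕ) : TP 1 (DD N) (PP r N) := by
  induction N with
  | zero =>
    have : PP r 0 = fun _ => 1 := by ext x; simp [PP]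
    rw [this]
    exact TP.const _ _ 1
  | succ N ih =>
    have h := ih.mul ((TP_factor (r N) (3 ^ N)).mono (one_dvd _) le_rfl)
    have e : DD (N + 1) = DD N + 3 ^ N := by simp [DD, Finset.sum_range_succ]
    rw [e]
    convert h using 2 with x
    simp [PP, Finset.prod_range_succ]

lemma PP_nonneg {r : ℕ → ℝ} (hr : ∀ n, |r n| ≤ 1) (N : ℕ) (x : Tc) : 0 ≤ PP r N x := by
  refine Finset.prod_nonneg fun n _ => ?_
  have h1 : |r n * cs (3 ^ n) x| ≤ 1 := by
    rw [abs_mul]
    exact mul_le_one₀ (hr n) (abs_nonneg _) (abs_cs_le _ _)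
  linarith [neg_abs_le (r n * cs (3 ^ n) x)]

lemma integral_mul_PP_succ (r : ℕ → ℝ) {K N : ℕ} {g : Tc → ℝ} (hg : TP 1 K g)
    (h : K + DD N < 3 ^ N) :
    ∫ x, g x * PP r (N + 1) x ∂hm = ∫ x, g x * PP r N x ∂hm := by
  have h1 := (hg.mul (TP_PP r N)).indep (TP_factor (r N) (3 ^ N)) h
  rw [integral_factor _ (by positivity), mul_one] at h1
  rw [← h1]
  congr 1
  ext x
  simp [PP, Finset.prod_range_succ, mul_assoc]

lemma integral_PP (r : ℕ → ℝ) (N : ℕ) : ∫ x, PP r N x ∂hm = 1 := by
  induction N with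
  | zero => simp [PP]
  | succ N ih =>
    have h := integral_mul_PP_succ r (N := N) (TP.const 1 0 1) (by have := DD_eq N; omega)
    simp only [one_mul] at h
    rw [h, ih]

lemma integral_mul_PP_stable (r : ℕ → ℝ) {K : ℕ} {g : Tc → ℝ} (hg : TP 1 K g) {N : ℕ}
    (hN : K ≤ N) : ∫ x, g x * PP r N x ∂hm = ∫ x, g x * PP r K x ∂hm := by
  induction N, hN using Nat.le_induction with
  | base => rfl
  | succ N hN ih =>
    rw [integral_mul_PP_succ r hg, ih]
    have h1 := DD_eq N
    have h2 : 2 * N + 1 ≤ 3 ^ N := by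
      clear h1 ih hN
      induction N with
      | zero => simp
      | succ N ih => rw [pow_succ]; omega
    omega

lemma exists_TP_near (f : C(Tc, ℝ)) {ε : ℝ} (hε : 0 < ε) :
    ∃ (K : ℕ) (g : Tc → ℝ), TP 1 K g ∧ ∀ x, |f x - g x| ≤ ε := by
  let F : C(Tc, ℂ) := ⟨fun x => (f x : ℂ), by fun_prop⟩
  have hF : F ∈ (Submodule.span ℂ (Set.range (@fourier (2 * π)))).topologicalClosure := by
    rw [span_fourier_closure_eq_top]; trivial
  have hF' : F ∈ closure (Submodule.span ℂ (Set.range (@fourier (2 * π))) : Set C(Tc, ℂ)) := hF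
  obtain ⟨G, hG, hd⟩ := Metric.mem_closure_iff.1 hF' ε hε
  have hG' : ∃ K : ℕ, TPc 1 K (fun x => G x) := by
    clear hd
    induction hG using Submodule.span_induction with
    | mem x hx =>
      obtain ⟨n, rfl⟩ := hx
      exact ⟨n.natAbs, TPc.basis (by simp) le_rfl⟩
    | zero => exact ⟨0, TPc.zero _ _⟩
    | add x y _ _ hx hy =>
      obtain ⟨K1, h1⟩ := hx
      obtain ⟨K2, h2⟩ := hy
      exact ⟨K1 + K2, (h1.mono dvd_rfl (Nat.le_add_right _ _)).add
        (h2.mono dvd_rfl (Nat.le_add_left _ _))⟩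
    | smul a x _ hx =>
      obtain ⟨K1, h1⟩ := hx
      exact ⟨K1, h1.smul a⟩
  obtain ⟨K, hK⟩ := hG'
  refine ⟨K, fun x => (G x).re, hK.re, fun x => ?_⟩
  have h1 : dist (F x) (G x) ≤ dist F G := ContinuousMap.dist_apply_le_dist x
  have h2 : |(F x - G x).re| ≤ ‖F x - G x‖ := Complex.abs_re_le_norm _
  rw [dist_eq_norm] at h1
  have h3 : (F x - G x).re = f x - (G x).re := by simp [F]
  rw [h3] at h2
  linarith

lemma cauchy_PP {r : ℕ → ℝ} (hr : ∀ n, |r n| ≤ 1) (f : C(Tc, ℝ)) :
    CauchySeq (fun N => ∫ x, f x * PP r N x ∂hm) := by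
  rw [Metric.cauchySeq_iff']
  intro ε hε
  obtain ⟨K, g, hg, hfg⟩ := exists_TP_near f (show 0 < ε / 3 by positivity)
  have key : ∀ N, |∫ x, f x * PP r N x ∂hm - ∫ x, g x * PP r N x ∂hm| ≤ ε / 3 := by
    intro N
    have cP := (TP_PP r N).continuous
    rw [← integral_sub (integrable_of_continuous _ (f.continuous.fun_mul cP))
      (integrable_of_continuous _ (hg.continuous.fun_mul cP))]
    refine (abs_integral_le_integral_abs).trans ?_
    calc ∫ x, |f x * PP r N x - g x * PP r N x| ∂hm ≤ ∫ x, ε / 3 * PP r N x ∂hm := by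
          refine integral_mono (integrable_of_continuous _
            ((f.continuous.fun_mul cP).fun_sub (hg.continuous.fun_mul cP)).abs) ?_ ?_
          · exact integrable_of_continuous _ (continuous_const.fun_mul cP)
          · intro x
            have h0 := PP_nonneg hr N x
            simp only
            rw [← sub_mul, abs_mul, abs_of_nonneg h0]
            exact mul_le_mul_of_nonneg_right (hfg x) h0
      _ = ε / 3 := by rw [integral_const_mul, integral_PP, mul_one]
  refine ⟨K, fun N hN => ?_⟩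
  have h1 := key N
  have h2 := key K
  rw [integral_mul_PP_stable r hg hN] at h1
  rw [Real.dist_eq, abs_lt]
  rw [abs_le] at h1 h2
  constructor <;> linarith [h1.1, h1.2, h2.1, h2.2]

/-- `μ` is the weak limit of the finite products -/
def IsLim (r : ℕ → ℝ) (μ : Measure Tc) : Prop :=
  IsProbabilityMeasure μ ∧ ∀ f : C(Tc, ℝ),
    Tendsto (fun N => ∫ x, f x * PP r N x ∂hm) atTop (𝓝 (∫ x, f x ∂μ))

lemma exists_isLim {r : ℕ → ℝ} (hr : ∀ n, |r n| ≤ 1) : ∃ μ, IsLim r μ := by
  have hmeas : ∀ N, Measurable (fun x => (PP r N x).toNNReal) := fun N =>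
    (TP_PP r N).continuous.measurable.real_toNNReal
  have hint : ∀ N (f : Tc → ℝ), ∫ x, f x ∂(hm.withDensity (fun x => ((PP r N x).toNNReal : ENNReal)))
      = ∫ x, f x * PP r N x ∂hm := by
    intro N f
    rw [integral_withDensity_eq_integral_smul (hmeas N)]
    congr 1
    ext x
    rw [NNReal.smul_def, Real.coe_toNNReal _ (PP_nonneg hr N x), smul_eq_mul, mul_comm]
  have hprob : ∀ N, IsProbabilityMeasure
      (hm.withDensity (fun x => ((PP r N x).toNNReal : ENNReal))) := by
    intro N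
    constructor
    rw [withDensity_apply _ MeasurableSet.univ, Measure.restrict_univ]
    have := ofReal_integral_eq_lintegral_ofReal (μ := hm) (f := PP r N)
      (integrable_of_continuous _ (TP_PP r N).continuous)
      (Eventually.of_forall (PP_nonneg hr N))
    rw [integral_PP] at this
    simpa [ENNReal.ofReal] using this.symm
  let ν : ℕ → ProbabilityMeasure Tc := fun N => ⟨_, hprob N⟩
  obtain ⟨μ, hμ⟩ : ∃ μ : ProbabilityMeasure Tc, MapClusterPt μ atTop ν := by
    obtain ⟨μ, -, h⟩ := isCompact_univ.exists_mapClusterPt (f := atTop) (u := ν) (by simp)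
    exact ⟨μ, h⟩
  refine ⟨μ, inferInstance, fun f => ?_⟩
  obtain ⟨l, hl⟩ := cauchySeq_tendsto_of_complete (cauchy_PP hr f)
  have hc : Continuous (fun ρ : ProbabilityMeasure Tc => ∫ x, f x ∂(ρ : Measure Tc)) :=
    ProbabilityMeasure.continuous_integral_continuousMap f
  have h1 := hμ.continuousAt_comp hc.continuousAt
  have h2 : ((fun ρ : ProbabilityMeasure Tc => ∫ x, f x ∂(ρ : Measure Tc)) ∘ ν)
      = fun N => ∫ x, f x * PP r N x ∂hm := by
    ext N
    exact hint N f
  rw [h2] at h1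
  have h3 : ∫ x, f x ∂(μ : Measure Tc) = l := by
    have h4 : ClusterPt (∫ x, f x ∂(μ : Measure Tc)) (𝓝 l) := ClusterPt.mono h1 hl
    exact eq_of_nhds_neBot h4
  rw [h3]
  exact hl

end Pool.Agent.MP_b30265_an
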