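import Pool.Agent.MP_b30265_an.AC

open MeasureTheory Filter Topology Real

noncomputable section

namespace Pool.Agent.MP_b30265_an

lemma integral_hm (g : Tc → ℝ) :
    ∫ x, g x ∂hm = (1 / (2 * π)) * ∫ x in (0 : ℝ)..(2 * π), g (x : Tc) := by
  rw [AddCircle.integral_haarAddCircle, ← AddCircle.intervalIntegral_preimage (2 * π) 0 g]
  simp

def sb (y : Tc) : ℝ := (1 - cs 1 y) / 2

def II (m : ℕ) : ℝ := ∫ y, sb y ^ m ∂hm

lemma TP_sb : TP 1 1 sb := by
  have := TP.smul (1 / 2) (TP_factor (-1) 1)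
  convert this using 2 with y
  unfold sb
  ring

lemma sb_nonneg (y : Tc) : 0 ≤ sb y := by
  have := abs_le.1 (abs_cs_le 1 y)
  unfold sb
  linarith [this.2]

lemma sb_le_one (y : Tc) : sb y ≤ 1 := by
  have := abs_le.1 (abs_cs_le 1 y)
  unfold sb
  linarith [this.1]

lemma II_eq (m : ℕ) : II m = ∏ i ∈ Finset.range m, (2 * (i : ℝ) + 1) / (2 * i + 2) := by
  unfold II
  rw [integral_hm]
  have h1 : (fun x : ℝ => sb (x : Tc) ^ m) = fun x => (fun t => Real.sin t ^ (2 * m)) (x / 2) := by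
    ext x
    simp only [sb, cs_coe, pow_mul]
    congr 1
    rw [Real.sin_sq_eq_half_sub]
    have : 2 * (x / 2) = ((1 : ℕ) : ℝ) * x := by push_cast; ring
    rw [this]
    ring
  rw [h1, intervalIntegral.integral_comp_div (f := fun t => Real.sin t ^ (2 * m)) two_ne_zero]
  have h2 : 2 * π / 2 = π := by ring
  rw [zero_div, h2, integral_sin_pow_even, smul_eq_mul]
  field_simp

lemma II_succ (m : ℕ) : II (m + 1) = II m * ((2 * (m : ℝ) + 1) / (2 * m + 2)) := by
  rw [II_eq, II_eq, Finset.prod_range_succ]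

lemma II_pos (m : ℕ) : 0 < II m := by
  rw [II_eq]
  exact Finset.prod_pos fun i _ => by positivity

lemma II_upper (m : ℕ) : II m ^ 2 * (2 * m + 1) ≤ 1 := by
  induction m with
  | zero => simp [II_eq]
  | succ m ih =>
    rw [II_succ]
    refine le_trans ?_ ih
    rw [mul_pow, mul_assoc]
    refine mul_le_mul_of_nonneg_left ?_ (sq_nonneg _)
    have hm : (0 : ℝ) ≤ m := Nat.cast_nonneg m
    rw [div_pow, div_mul_eq_mul_div, div_le_iff₀ (by positivity)]
    push_cast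
    nlinarith

lemma II_lower (m : ℕ) : 1 ≤ II (m + 1) ^ 2 * (4 * (m + 1)) := by
  induction m with
  | zero => simp [II_eq]; norm_num
  | succ m ih =>
    rw [II_succ]
    refine le_trans ih ?_
    rw [mul_pow, mul_assoc]
    refine mul_le_mul_of_nonneg_left ?_ (sq_nonneg _)
    have hm : (0 : ℝ) ≤ m := Nat.cast_nonneg m
    rw [div_pow, div_mul_eq_mul_div, le_div_iff₀ (by positivity)]
    push_cast
    nlinarith

lemma II_diff (m : ℕ) : II m - II (m + 1) = II m / (2 * m + 2) := by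
  rw [II_succ]
  field_simp
  ring

lemma cont_sb_pow (m : ℕ) : Continuous fun y => sb y ^ m := (TP_sb.pow m).continuous

lemma integral_lin (m : ℕ) (α β : ℝ) :
    ∫ y, (α * sb y ^ m + β * (sb y ^ m - sb y ^ (m + 1))) ∂hm
      = α * II m + β * (II m / (2 * m + 2)) := by
  rw [integral_add (integrable_of_continuous _ (continuous_const.fun_mul (cont_sb_pow m)))
    (integrable_of_continuous _ (continuous_const.fun_mul
      ((cont_sb_pow m).fun_sub (cont_sb_pow (m + 1))))),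
    integral_const_mul, integral_const_mul,
    integral_sub (integrable_of_continuous _ (cont_sb_pow m))
      (integrable_of_continuous _ (cont_sb_pow (m + 1))), ← II_diff]
  rfl

lemma p_upper (m : ℕ) {ε g : ℝ} (h0 : 0 ≤ ε) (h1 : ε ≤ 1) (hg : |g| ≤ 1) :
    ∫ y, sb y ^ m * blk (1 - ε) g y ∂hm ≤ 2 * ε * II m + 4 * (II m / (2 * m + 2)) := by
  rw [← integral_lin]
  refine integral_mono
    (integrable_of_continuous _ ((cont_sb_pow m).fun_mul (TP_blk _ _).continuous))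
    (integrable_of_continuous _ ((continuous_const.fun_mul (cont_sb_pow m)).fun_add
      (continuous_const.fun_mul ((cont_sb_pow m).fun_sub (cont_sb_pow (m + 1)))))) fun y => ?_
  simp only
  have hs : 0 ≤ sb y ^ m := pow_nonneg (sb_nonneg y) m
  have hc := abs_le.1 (abs_cs_le 1 y)
  have hw : 1 + g * cs 3 y ≤ 2 := by
    have : |g * cs 3 y| ≤ 1 := by
      rw [abs_mul]; exact mul_le_one₀ hg (abs_nonneg _) (abs_cs_le _ _)
    linarith [le_abs_self (g * cs 3 y)]
  have hu0 : 0 ≤ 1 + (1 - ε) * cs 1 y := by nlinarith [hc.1, hc.2]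
  have hu1 : 1 + (1 - ε) * cs 1 y ≤ ε + 2 * (1 - sb y) := by
    unfold sb
    nlinarith [hc.1, hc.2]
  have hb : blk (1 - ε) g y ≤ 2 * ε + 4 * (1 - sb y) := by
    unfold blk
    nlinarith [mul_le_mul_of_nonneg_left hw hu0]
  calc sb y ^ m * blk (1 - ε) g y ≤ sb y ^ m * (2 * ε + 4 * (1 - sb y)) :=
        mul_le_mul_of_nonneg_left hb hs
    _ = _ := by ring

lemma p_lower (m : ℕ) {δ ε : ℝ} (h0 : 0 ≤ δ) (h1 : δ ≤ 1) (e0 : 0 ≤ ε) (e1 : ε ≤ 1 / 2) :
    δ * II m + (-9 * δ) * (II m / (2 * m + 2))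
      ≤ ∫ y, sb y ^ m * blk (1 - δ) (-(1 - ε)) y ∂hm := by
  rw [← integral_lin]
  refine integral_mono
    (integrable_of_continuous _ ((continuous_const.fun_mul (cont_sb_pow m)).fun_add
      (continuous_const.fun_mul ((cont_sb_pow m).fun_sub (cont_sb_pow (m + 1))))))
    (integrable_of_continuous _ ((cont_sb_pow m).fun_mul (TP_blk _ _).continuous))
     fun y => ?_
  simp only
  have hs : 0 ≤ sb y ^ m := pow_nonneg (sb_nonneg y) m
  have hc := abs_le.1 (abs_cs_le 1 y)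
  have hc3 := abs_le.1 (abs_cs_le 3 y)
  have hv : δ ≤ 1 + (1 - δ) * cs 1 y := by nlinarith [hc.1, hc.2]
  have hw0 : 0 ≤ 1 + -(1 - ε) * cs 3 y := by nlinarith [hc3.1, hc3.2]
  have hw1 : (1 - cs 3 y) / 2 ≤ 1 + -(1 - ε) * cs 3 y := by nlinarith [hc3.1, hc3.2]
  have hw2 : 1 - 9 * (1 - sb y) ≤ (1 - cs 3 y) / 2 := by
    rw [cs_three]
    unfold sb
    nlinarith [hc.1, hc.2, mul_nonneg (sq_nonneg (1 + cs 1 y)) (show 0 ≤ 2 - cs 1 y by linarith [hc.2])]
  have hb : δ * (1 - 9 * (1 - sb y)) ≤ blk (1 - δ) (-(1 - ε)) y := by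
    unfold blk
    calc δ * (1 - 9 * (1 - sb y)) ≤ δ * (1 + -(1 - ε) * cs 3 y) :=
          mul_le_mul_of_nonneg_left (hw2.trans hw1) h0
      _ ≤ _ := mul_le_mul_of_nonneg_right hv hw0
  calc _ = sb y ^ m * (δ * (1 - 9 * (1 - sb y))) := by ring
    _ ≤ _ := mul_le_mul_of_nonneg_left hb hs

lemma one_sub_sum_le_prod' (q : ℕ → ℝ) (h0 : ∀ k, 0 ≤ q k) (h1 : ∀ k, q k ≤ 1) (K : ℕ) :
    1 - ∑ k ∈ Finset.range K, q k ≤ ∏ k ∈ Finset.range K, (1 - q k) := by
  induction K with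
  | zero => simp
  | succ K ih =>
    rw [Finset.sum_range_succ, Finset.prod_range_succ]
    have hs : 0 ≤ ∑ k ∈ Finset.range K, q k := Finset.sum_nonneg fun k _ => h0 k
    have := mul_le_mul_of_nonneg_right ih (sub_nonneg.2 (h1 K))
    nlinarith [mul_nonneg hs (h0 K)]

lemma prod_one_sub_le_exp' (q : ℕ → ℝ) (h1 : ∀ k, q k ≤ 1) (K : ℕ) :
    ∏ k ∈ Finset.range K, (1 - q k) ≤ Real.exp (-∑ k ∈ Finset.range K, q k) := by
  rw [← Finset.sum_neg_distrib, Real.exp_sum]
  refine Finset.prod_le_prod (fun k _ => sub_nonneg.2 (h1 k)) fun k _ => ?_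
  linarith [Real.add_one_le_exp (-q k)]

lemma sing_blocks {A B G : ℕ → ℝ} (hA : ∀ k, |A k| < 1) (hB : ∀ k, |B k| < 1)
    (hG : ∀ k, |G k| < 1) (m : ℕ → ℕ) (hm5 : ∀ k, m k + 5 ≤ 3 ^ (2 * k + 3))
    (hp : Summable fun k => ∫ y, sb y ^ m k * blk (A k) (G k) y ∂hm)
    (hq : Tendsto (fun K => ∑ k ∈ Finset.range K, ∫ y, sb y ^ m k * blk (B k) (G k) y ∂hm)
      atTop atTop)
    {μ ν : Measure Tc} (hμ : IsLim (coef A G) μ) (hν : IsLim (coef B G) ν) : μ ⟂ₘ ν := by
  have := hμ.1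
  have := hν.1
  have hint0 : ∀ (a g : ℝ) (j : ℕ), |a| < 1 → |g| < 1 → 0 ≤ ∫ y, sb y ^ j * blk a g y ∂hm :=
    fun a g j ha hg => integral_nonneg fun y =>
      mul_nonneg (pow_nonneg (sb_nonneg y) _) (blk_pos ha hg y).le
  have hint1 : ∀ (a g : ℝ) (j : ℕ), |a| < 1 → |g| < 1 → ∫ y, sb y ^ j * blk a g y ∂hm ≤ 1 := by
    intro a g j ha hg
    rw [← integral_blk a g]
    refine integral_mono
      (integrable_of_continuous _ ((cont_sb_pow j).fun_mul (TP_blk _ _).continuous))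
      (integrable_of_continuous _ (TP_blk _ _).continuous) fun y => ?_
    exact mul_le_of_le_one_left (blk_pos ha hg y).le (pow_le_one₀ (sb_nonneg y) (sb_le_one y))
  have hθint : ∀ (θ a g : ℝ) (j : ℕ), ∫ y, (1 - θ * sb y ^ j) * blk a g y ∂hm
      = 1 - θ * ∫ y, sb y ^ j * blk a g y ∂hm := by
    intro θ a g j
    have : (fun y => (1 - θ * sb y ^ j) * blk a g y)
        = fun y => blk a g y - θ * (sb y ^ j * blk a g y) := by
      ext y; ring
    rw [this, integral_sub (integrable_of_continuous _ (TP_blk _ _).continuous)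
      (integrable_of_continuous _ (continuous_const.fun_mul
        ((cont_sb_pow j).fun_mul (TP_blk _ _).continuous))), integral_const_mul, integral_blk]
  refine singular_of_test fun η hη => ?_
  set S := ∑' k, ∫ y, sb y ^ m k * blk (A k) (G k) y ∂hm with hS
  have hS0 : 0 ≤ S := tsum_nonneg fun k => hint0 _ _ _ (hA k) (hG k)
  set θ := η / (η + S) with hθ
  have hθ0 : 0 < θ := by positivity
  have hθ1 : θ ≤ 1 := by rw [hθ, div_le_one (by positivity)]; linarith
  have hθS : θ * S ≤ η := by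
    rw [hθ, div_mul_eq_mul_div, div_le_iff₀ (by positivity)]
    nlinarith
  have t1 : Tendsto (fun K => Real.exp (-(θ * ∑ k ∈ Finset.range K,
      ∫ y, sb y ^ m k * blk (B k) (G k) y ∂hm))) atTop (𝓝 0) :=
    Real.tendsto_exp_neg_atTop_nhds_zero.comp (hq.const_mul_atTop hθ0)
  obtain ⟨K, hK⟩ := (t1.eventually (ge_mem_nhds hη)).exists
  let h : ℕ → Tc → ℝ := fun k y => 1 - θ * sb y ^ m k
  have hh : ∀ k, TP 1 (m k) (h k) := fun k => by
    have := (TP.const 1 (m k * 1) 1).sub ((TP_sb.pow (m k)).smul θ)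
    simpa using this
  have h0 : ∀ k y, 0 ≤ h k y := fun k y => by
    have := mul_le_one₀ hθ1 (pow_nonneg (sb_nonneg y) (m k))
      (pow_le_one₀ (sb_nonneg y) (sb_le_one y))
    simp only [h]
    linarith
  have h1 : ∀ k y, h k y ≤ 1 := fun k y => by
    have := mul_nonneg hθ0.le (pow_nonneg (sb_nonneg y) (m k))
    simp only [h]
    linarith
  have hc : Continuous (fun x : Tc => ∏ k ∈ Finset.range K, h k ((Lam k : ℤ) • x)) :=
    continuous_finsetProd _ fun k _ => ((hh k).scale (Lam k)).continuous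
  refine ⟨⟨_, hc⟩, fun x => ?_, fun x => ?_, ?_, ?_⟩
  · simp only [ContinuousMap.coe_mk]
    exact Finset.prod_nonneg fun k _ => h0 _ _
  · simp only [ContinuousMap.coe_mk]
    exact Finset.prod_le_one (fun k _ => h0 _ _) fun k _ => h1 _ _
  · simp only [ContinuousMap.coe_mk]
    rw [integral_test hμ h m hh hm5 K]
    simp only [h, hθint]
    refine le_trans ?_ (one_sub_sum_le_prod' _
      (fun k => mul_nonneg hθ0.le (hint0 _ _ _ (hA k) (hG k)))
      (fun k => mul_le_one₀ hθ1 (hint0 _ _ _ (hA k) (hG k)) (hint1 _ _ _ (hA k) (hG k))) K)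
    rw [← Finset.mul_sum]
    have := mul_le_mul_of_nonneg_left
      (hp.sum_le_tsum (Finset.range K) fun k _ => hint0 _ _ _ (hA k) (hG k)) hθ0.le
    linarith
  · simp only [ContinuousMap.coe_mk]
    rw [integral_test hν h m hh hm5 K]
    simp only [h, hθint]
    refine le_trans (prod_one_sub_le_exp' _
      (fun k => mul_le_one₀ hθ1 (hint0 _ _ _ (hB k) (hG k)) (hint1 _ _ _ (hB k) (hG k))) K) ?_
    rw [← Finset.mul_sum]
    exact hK

end Pool.Agent.MP_b30265_an
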