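import Pool.Agent.MP_b30265_an.Defs
import Pool.Agent.MP_b30265_an.Sing

open MeasureTheory Filter Topology Real

noncomputable section

namespace Pool.Agent.MP_b30265_an

def zz (k : ℕ) : ℝ := ((k : ℝ) + 1) ^ (1 / 5 : ℝ)

def dl (k : ℕ) : ℝ := 1 / (2 * zz k ^ 3)

def ep (k : ℕ) : ℝ := dl k ^ 2

def mm (k : ℕ) : ℕ := ⌈zz k ^ 4⌉₊ + 8

lemma zz_ge (k : ℕ) : 1 ≤ zz k :=
  Real.one_le_rpow (by linarith [(Nat.cast_nonneg k : (0 : ℝ) ≤ k)]) (by norm_num)

lemma zz_pow_five (k : ℕ) : zz k ^ 5 = (k : ℝ) + 1 := by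
  unfold zz
  rw [← Real.rpow_natCast, ← Real.rpow_mul (by positivity)]
  norm_num

lemma dl_pos (k : ℕ) : 0 < dl k := by
  have := zz_ge k
  unfold dl
  positivity

lemma dl_le (k : ℕ) : dl k ≤ 1 / 2 := by
  have h := one_le_pow₀ (n := 3) (zz_ge k)
  unfold dl
  exact one_div_le_one_div_of_le (by norm_num) (by linarith)

lemma ep_pos (k : ℕ) : 0 < ep k := pow_pos (dl_pos k) 2

lemma ep_le (k : ℕ) : ep k ≤ dl k / 2 := by
  unfold ep
  nlinarith [dl_pos k, dl_le k]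

lemma summable_ep : Summable ep := by
  have h1 : Summable fun n : ℕ => 1 / (n : ℝ) ^ (6 / 5 : ℝ) :=
    Real.summable_one_div_nat_rpow.2 (by norm_num)
  have h2 := ((summable_nat_add_iff 1).2 h1).mul_left (1 / 4)
  refine h2.congr fun k => ?_
  have h3 : zz k ^ 6 = ((k : ℝ) + 1) ^ (6 / 5 : ℝ) := by
    unfold zz
    rw [← Real.rpow_natCast, ← Real.rpow_mul (by positivity)]
    norm_num
  have h4 : 0 < zz k := lt_of_lt_of_le one_pos (zz_ge k)
  unfold ep dl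
  push_cast
  rw [← h3]
  field_simp
  norm_num

lemma mm_ge (k : ℕ) : zz k ^ 4 + 8 ≤ (mm k : ℝ) := by
  unfold mm
  push_cast
  linarith [Nat.le_ceil (zz k ^ 4)]

lemma mm_le (k : ℕ) : (mm k : ℝ) ≤ zz k ^ 4 + 9 := by
  unfold mm
  push_cast
  have h4 : 0 < zz k := lt_of_lt_of_le one_pos (zz_ge k)
  linarith [Nat.ceil_lt_add_one (show 0 ≤ zz k ^ 4 by positivity)]

lemma mm_deg (k : ℕ) : mm k + 5 ≤ 3 ^ (2 * k + 3) := by
  have h1 : zz k ^ 4 ≤ zz k ^ 5 := pow_le_pow_right₀ (zz_ge k) (by norm_num)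
  rw [zz_pow_five] at h1
  have h2 : (mm k : ℝ) ≤ ((k + 10 : ℕ) : ℝ) := by
    push_cast
    linarith [mm_le k]
  have h3 : mm k ≤ k + 10 := by exact_mod_cast h2
  have h4 : k + 15 ≤ 3 ^ (2 * k + 3) := by
    clear h1 h2 h3
    induction k with
    | zero => norm_num
    | succ k ih =>
      have : 3 ^ (2 * (k + 1) + 3) = 9 * 3 ^ (2 * k + 3) := by ring
      omega
  omega

lemma II_mm_le (k : ℕ) : II (mm k) * zz k ^ 2 ≤ 1 := by
  have h1 := II_upper (mm k)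
  have h2 := mm_ge k
  have h3 : (II (mm k) * zz k ^ 2) ^ 2 ≤ 1 ^ 2 := by
    have h5 : zz k ^ 4 ≤ 2 * (mm k : ℝ) + 1 := by
      have : (0 : ℝ) ≤ mm k := Nat.cast_nonneg _
      linarith
    have := mul_le_mul_of_nonneg_left h5 (sq_nonneg (II (mm k)))
    nlinarith
  exact (abs_le_of_sq_le_sq' h3 zero_le_one).2

lemma II_mm_ge (k : ℕ) : 1 ≤ 8 * (II (mm k) * zz k ^ 2) := by
  have h1 := II_lower (⌈zz k ^ 4⌉₊ + 7)
  have e : ⌈zz k ^ 4⌉₊ + 7 + 1 = mm k := rfl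
  have e2 : ((⌈zz k ^ 4⌉₊ + 7 : ℕ) : ℝ) + 1 = (mm k : ℝ) := by rw [← e]; push_cast; ring
  rw [e, e2] at h1
  have h2 := mm_le k
  have h4 : 1 ≤ zz k ^ 4 := one_le_pow₀ (zz_ge k)
  have h0 : 0 < zz k := lt_of_lt_of_le one_pos (zz_ge k)
  have h3 : (1 : ℝ) ^ 2 ≤ (8 * (II (mm k) * zz k ^ 2)) ^ 2 := by
    have h5 : 4 * (mm k : ℝ) ≤ 64 * zz k ^ 4 := by linarith
    have := mul_le_mul_of_nonneg_left h5 (sq_nonneg (II (mm k)))
    nlinarith
  have := II_pos (mm k)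
  exact (abs_le_of_sq_le_sq' h3 (by positivity)).2

def cA (k : ℕ) : ℝ := 1 - ep k

def cB (k : ℕ) : ℝ := 1 - dl k

lemma abs_cA (k : ℕ) : |cA k| < 1 := by
  unfold cA
  rw [abs_lt]
  constructor <;> linarith [ep_pos k, ep_le k, dl_le k]

lemma abs_cB (k : ℕ) : |cB k| < 1 := by
  unfold cB
  rw [abs_lt]
  constructor <;> linarith [dl_pos k, dl_le k]

lemma abs_neg_cA (k : ℕ) : |-cA k| < 1 := by rw [abs_neg]; exact abs_cA k

lemma kill_A (k : ℕ) (y : Tc) : 1 + cA k * cs 3 y ≤ 9 * (1 + cA k * cs 1 y) := by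
  have hc := abs_le.1 (abs_cs_le 1 y)
  have h1 : 1 + cs 3 y ≤ 9 * (1 + cs 1 y) := by
    rw [cs_three]
    have : 0 ≤ (1 + cs 1 y) * ((2 - cs 1 y) * (1 + cs 1 y)) :=
      mul_nonneg (by linarith [hc.1]) (mul_nonneg (by linarith [hc.2]) (by linarith [hc.1]))
    nlinarith
  have h2 : 0 ≤ 1 - ep k := by linarith [ep_le k, dl_le k]
  unfold cA
  nlinarith [mul_le_mul_of_nonneg_left h1 h2, ep_pos k]

lemma A_le_B (k : ℕ) (y : Tc) : 1 + cA k * cs 1 y ≤ 2 * (1 + cB k * cs 1 y) := by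
  have hc := abs_le.1 (abs_cs_le 1 y)
  unfold cA cB
  nlinarith [ep_pos k, ep_le k, dl_le k, dl_pos k, hc.1, hc.2,
    mul_nonneg (show 0 ≤ 1 + cs 1 y by linarith [hc.1]) (ep_pos k).le,
    mul_nonneg (show 0 ≤ 1 + cs 1 y by linarith [hc.1])
      (show 0 ≤ 1 / 2 - dl k by linarith [dl_le k])]

lemma diff_sq (k : ℕ) (y : Tc) : ((cA k - cB k) * cs 1 y) ^ 2 ≤ ep k := by
  have hc := abs_le.1 (abs_cs_le 1 y)
  have h1 : cs 1 y ^ 2 ≤ 1 := by nlinarith [hc.1, hc.2]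
  have h2 : (cA k - cB k) ^ 2 ≤ ep k := by
    have : cA k - cB k = dl k - ep k := by unfold cA cB; ring
    rw [this]
    have h3 : ep k = dl k ^ 2 := rfl
    nlinarith [ep_pos k, ep_le k, dl_pos k]
  rw [mul_pow]
  nlinarith [sq_nonneg (cA k - cB k), sq_nonneg (cs 1 y)]

lemma ac_AB {μ ν : Measure Tc} (hμ : IsLim (coef cA cA) μ) (hν : IsLim (coef cB cA) ν) :
    μ ≪ ν := by
  refine ac_blocks (e := fun k => 18 * ep k) abs_cB abs_cA
    (fun k => by linarith [ep_pos k]) (summable_ep.mul_left 18) (fun k y => ?_) hμ hν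
  have hw := (one_add_mul_pos (abs_cA k) (abs_cs_le 3 y)).le
  have h1 := mul_le_mul_of_nonneg_right (diff_sq k y) hw
  have h2 : 1 + cA k * cs 3 y ≤ 18 * (1 + cB k * cs 1 y) := by
    linarith [kill_A k y, A_le_B k y]
  have h3 := mul_le_mul_of_nonneg_left h2 (ep_pos k).le
  nlinarith

lemma ac_BA {μ ν : Measure Tc} (hμ : IsLim (coef cA cA) μ) (hν : IsLim (coef cB cA) ν) :
    ν ≪ μ := by
  refine ac_blocks (e := fun k => 9 * ep k) abs_cA abs_cA
    (fun k => by linarith [ep_pos k]) (summable_ep.mul_left 9) (fun k y => ?_) hν hμ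
  have hw := (one_add_mul_pos (abs_cA k) (abs_cs_le 3 y)).le
  have h0 : ((cB k - cA k) * cs 1 y) ^ 2 = ((cA k - cB k) * cs 1 y) ^ 2 := by ring
  rw [h0]
  have h1 := mul_le_mul_of_nonneg_right (diff_sq k y) hw
  have h3 := mul_le_mul_of_nonneg_left (kill_A k y) (ep_pos k).le
  nlinarith

lemma sing_AB {μ ν : Measure Tc} (hμ : IsLim (coef cA fun k => -cA k) μ)
    (hν : IsLim (coef cB fun k => -cA k) ν) : μ ⟂ₘ ν := by
  refine sing_blocks abs_cA abs_cB abs_neg_cA mm mm_deg ?_ ?_ hμ hν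
  · refine Summable.of_nonneg_of_le (fun k => integral_nonneg fun y =>
      mul_nonneg (pow_nonneg (sb_nonneg y) _) (blk_pos (abs_cA k) (abs_neg_cA k) y).le)
      (fun k => ?_) (summable_ep.mul_left 10)
    have h1 := p_upper (mm k) (ε := ep k) (g := -cA k) (ep_pos k).le
      (by linarith [ep_le k, dl_le k]) (abs_neg_cA k).le
    refine le_trans h1 ?_
    have hz : 0 < zz k := lt_of_lt_of_le one_pos (zz_ge k)
    have hI := II_mm_le k
    have hI0 := II_pos (mm k)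
    have hz2 : 1 ≤ zz k ^ 2 := one_le_pow₀ (zz_ge k)
    have hI1 : II (mm k) ≤ 1 := by nlinarith
    have h2 : II (mm k) / (2 * (mm k : ℝ) + 2) ≤ 2 * ep k := by
      have e : 2 * ep k = (1 / zz k ^ 2) / (2 * zz k ^ 4) := by
        unfold ep dl
        field_simp
      rw [e]
      refine div_le_div₀ (by positivity) ?_ (by positivity) (by linarith [mm_ge k])
      rw [le_div_iff₀ (by positivity)]
      exact hI
    nlinarith [ep_pos k]
  · have t1 : Tendsto (fun K => (1 / 32 : ℝ) * ∑ k ∈ Finset.range K, (1 / ((k : ℝ) + 1)))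
        atTop atTop :=
      Real.tendsto_sum_range_one_div_nat_succ_atTop.const_mul_atTop (by norm_num)
    refine tendsto_atTop_mono (fun K => ?_) t1
    rw [Finset.mul_sum]
    refine Finset.sum_le_sum fun k _ => ?_
    have h1 := p_lower (mm k) (δ := dl k) (ε := ep k) (dl_pos k).le (by linarith [dl_le k])
      (ep_pos k).le (by linarith [ep_le k, dl_le k])
    refine le_trans ?_ h1
    have hz : 0 < zz k := lt_of_lt_of_le one_pos (zz_ge k)
    have hI := II_mm_ge k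
    have hI0 := II_pos (mm k)
    have hz4 : 1 ≤ zz k ^ 4 := one_le_pow₀ (zz_ge k)
    have h2 : II (mm k) / (2 * (mm k : ℝ) + 2) ≤ II (mm k) / 18 :=
      div_le_div_of_nonneg_left hI0.le (by norm_num) (by linarith [mm_ge k])
    have h3 : (1 / 32 : ℝ) * (1 / ((k : ℝ) + 1)) ≤ dl k * II (mm k) / 2 := by
      rw [← zz_pow_five]
      have e : dl k * II (mm k) / 2
          = (1 / 32 : ℝ) * (1 / zz k ^ 5) * (8 * (II (mm k) * zz k ^ 2)) := by
        unfold dl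
        field_simp
        norm_num
      rw [e]
      exact le_mul_of_one_le_right (by positivity) hI
    have h4 := mul_le_mul_of_nonneg_left h2 (dl_pos k).le
    nlinarith

/-- the phases: `π` at the indices `j ^ 2 + 1`, and `0` elsewhere -/
def ph (n : ℕ) : ℝ := if n = (Nat.sqrt n) ^ 2 + 1 then π else 0

lemma abs_coef_lt {A G : ℕ → ℝ} (hA : ∀ k, |A k| < 1) (hG : ∀ k, |G k| < 1) (n : ℕ) :
    |coef A G n| < 1 := by
  unfold coef
  split_ifs
  · simp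
  · exact hA _
  · exact hG _
  · simp

lemma coef_nonneg {A G : ℕ → ℝ} (hA : ∀ k, 0 ≤ A k) (hG : ∀ k, 0 ≤ G k) (n : ℕ) :
    0 ≤ coef A G n := by
  unfold coef
  split_ifs
  · simp
  · exact hA _
  · exact hG _
  · simp

lemma coef_phase (A G : ℕ → ℝ) (n : ℕ) (t : ℝ) :
    coef A G n * Real.cos (t + ph n) = coef A (fun k => -G k) n * Real.cos t := by
  unfold coef ph
  split_ifs with h1 h2 h3 h4
  · simp
  · simp
  · omega
  · simp
  · simp
  · simp

lemma isRiesz_of_isLim {c r φ : ℕ → ℝ} {μ : Measure Tc} (hμ : IsLim r μ)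
    (h : ∀ n t, c n * Real.cos (t + φ n) = r n * Real.cos t) :
    IsRieszProduct (fun n => 3 ^ n) (fun n => (c n : ℂ)) φ μ := by
  have := hμ.1
  refine ⟨inferInstance, fun f => (hμ.2 f).congr fun N => ?_⟩
  rw [integral_hm]
  congr 2
  ext x
  congr 1
  unfold PP
  refine Finset.prod_congr rfl fun n _ => ?_
  rw [cs_coe, ← h]
  have e : Complex.I * ((((3 ^ n : ℕ) : ℕ) : ℂ) * (x : ℂ) + (φ n : ℂ))
      = ((((3 ^ n : ℕ) : ℝ) * x + φ n : ℝ) : ℂ) * Complex.I := by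
    push_cast
    ring
  rw [e, Complex.re_ofReal_mul, Complex.exp_ofReal_mul_I_re]

theorem main :
    ∃ (a b : ℕ → ℂ) (φ : ℕ → ℝ) (μa μb νa νb : Measure (AddCircle (2 * π))),
      (∀ n, ‖a n‖ < 1) ∧ (∀ n, ‖b n‖ < 1) ∧
      IsRieszProduct (fun n => 3 ^ n) a 0 μa ∧ IsRieszProduct (fun n => 3 ^ n) b 0 μb ∧
      IsRieszProduct (fun n => 3 ^ n) a φ νa ∧ IsRieszProduct (fun n => 3 ^ n) b φ νb ∧
      μa ≪ μb ∧ μb ≪ μa ∧ νa ⟂ₘ νb ∧ ¬ νa ≪ νb := by
  obtain ⟨μa, ha⟩ := exists_isLim fun n => (abs_coef_lt abs_cA abs_cA n).le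
  obtain ⟨μb, hb⟩ := exists_isLim fun n => (abs_coef_lt abs_cB abs_cA n).le
  obtain ⟨νa, ha'⟩ := exists_isLim fun n => (abs_coef_lt abs_cA abs_neg_cA n).le
  obtain ⟨νb, hb'⟩ := exists_isLim fun n => (abs_coef_lt abs_cB abs_neg_cA n).le
  have hs := sing_AB ha' hb'
  refine ⟨fun n => (coef cA cA n : ℂ), fun n => (coef cB cA n : ℂ), ph, μa, μb, νa, νb,
    fun n => ?_, fun n => ?_, isRiesz_of_isLim ha (by simp), isRiesz_of_isLim hb (by simp),
    isRiesz_of_isLim ha' (coef_phase _ _), isRiesz_of_isLim hb' (coef_phase _ _),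
    ac_AB ha hb, ac_BA ha hb, hs, fun hac => ?_⟩
  · rw [Complex.norm_real]; exact abs_coef_lt abs_cA abs_cA n
  · rw [Complex.norm_real]; exact abs_coef_lt abs_cB abs_cA n
  · have := ha'.1
    exact IsProbabilityMeasure.ne_zero νa (Measure.eq_zero_of_absolutelyContinuous_of_mutuallySingular hac hs)

end Pool.Agent.MP_b30265_an
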