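import Mathlib

open MeasureTheory Filter Topology Real

noncomputable section

namespace Pool.Agent.MP_b30265_an

instance factTwoPi : Fact (0 < 2 * π) := ⟨Real.two_pi_pos⟩

abbrev Tc : Type := AddCircle (2 * π)

abbrev hm : Measure Tc := AddCircle.haarAddCircle

/-- complex trigonometric polynomials with spectrum in the multiples of `L` of size at most `D` -/
def TPc (L D : ℕ) (g : Tc → ℂ) : Prop :=
  g ∈ Submodule.span ℂ ((fun n : ℤ => ((fourier n : C(Tc, ℂ)) : Tc → ℂ)) ''
    {n : ℤ | (L : ℤ) ∣ n ∧ n.natAbs ≤ D})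

def TP (L D : ℕ) (f : Tc → ℝ) : Prop := TPc L D (fun x => (f x : ℂ))

lemma TPc.induction {L D : ℕ} {p : (Tc → ℂ) → Prop}
    (hb : ∀ n : ℤ, (L : ℤ) ∣ n → n.natAbs ≤ D → p (fun x => fourier n x))
    (h0 : p (fun _ => 0))
    (hadd : ∀ f g, p f → p g → p (fun x => f x + g x))
    (hsmul : ∀ (c : ℂ) f, p f → p (fun x => c * f x))
    {g : Tc → ℂ} (hg : TPc L D g) : p g := by
  unfold TPc at hg
  induction hg using Submodule.span_induction with
  | mem x hx =>
    obtain ⟨n, ⟨h1, h2⟩, rfl⟩ := hx
    exact hb n h1 h2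
  | zero => exact h0
  | add x y _ _ hx hy => exact hadd x y hx hy
  | smul a x _ hx => exact hsmul a x hx

lemma TPc.basis {L D : ℕ} {n : ℤ} (h1 : (L : ℤ) ∣ n) (h2 : n.natAbs ≤ D) :
    TPc L D (fun x => fourier n x) :=
  Submodule.subset_span ⟨n, ⟨h1, h2⟩, rfl⟩

lemma TPc.zero (L D : ℕ) : TPc L D (fun _ => 0) := Submodule.zero_mem _

lemma TPc.add {L D : ℕ} {f g : Tc → ℂ} (hf : TPc L D f) (hg : TPc L D g) :
    TPc L D (fun x => f x + g x) := Submodule.add_mem _ hf hg

lemma TPc.smul {L D : ℕ} {f : Tc → ℂ} (c : ℂ) (hf : TPc L D f) :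
    TPc L D (fun x => c * f x) := Submodule.smul_mem _ c hf

lemma TPc.const (L D : ℕ) (c : ℂ) : TPc L D (fun _ => c) := by
  have h := (TPc.basis (L := L) (D := D) (n := 0) (dvd_zero _) (by simp)).smul c
  simpa using h

lemma TPc.continuous {L D : ℕ} {g : Tc → ℂ} (hg : TPc L D g) : Continuous g := by
  refine TPc.induction (p := fun g => Continuous g) ?_ ?_ ?_ ?_ hg
  · intro n _ _; exact (fourier n).continuous
  · exact continuous_const
  · intro f g hf hg; exact hf.add hg
  · intro c f hf; exact continuous_const.mul hf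

lemma TPc.mono {L D L' D' : ℕ} (hL : L' ∣ L) (hD : D ≤ D') {g : Tc → ℂ} (hg : TPc L D g) :
    TPc L' D' g := by
  refine TPc.induction (p := fun g => TPc L' D' g) ?_ ?_ ?_ ?_ hg
  · intro n h1 h2
    exact TPc.basis ((Int.natCast_dvd_natCast.2 hL).trans h1) (h2.trans hD)
  · exact TPc.zero _ _
  · intro f g hf hg; exact hf.add hg
  · intro c f hf; exact hf.smul c

lemma TPc.mul {L D E : ℕ} {f g : Tc → ℂ} (hf : TPc L D f) (hg : TPc L E g) :
    TPc L (D + E) (fun x => f x * g x) := by
  refine TPc.induction (p := fun f => TPc L (D + E) (fun x => f x * g x)) ?_ ?_ ?_ ?_ hf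
  · intro n h1 h2
    refine TPc.induction (p := fun g => TPc L (D + E) (fun x => fourier n x * g x)) ?_ ?_ ?_ ?_ hg
    · intro k k1 k2
      have : (fun x : Tc => fourier n x * fourier k x) = fun x => fourier (n + k) x := by
        ext x; rw [fourier_add]
      rw [this]
      exact TPc.basis (dvd_add h1 k1) ((Int.natAbs_add_le _ _).trans (add_le_add h2 k2))
    · simpa using TPc.zero _ _
    · intro f g hf hg
      simpa [mul_add] using hf.add hg
    · intro c f hf
      have := hf.smul c
      convert this using 2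
      ring
  · simpa using TPc.zero _ _
  · intro f g hf hg
    simpa [add_mul] using hf.add hg
  · intro c f hf
    have := hf.smul c
    convert this using 2
    ring

lemma TPc.conj {L D : ℕ} {g : Tc → ℂ} (hg : TPc L D g) :
    TPc L D (fun x => (starRingEnd ℂ) (g x)) := by
  refine TPc.induction (p := fun g => TPc L D (fun x => (starRingEnd ℂ) (g x))) ?_ ?_ ?_ ?_ hg
  · intro n h1 h2
    have : (fun x : Tc => (starRingEnd ℂ) (fourier n x)) = fun x => fourier (-n) x := by
      ext x; rw [fourier_neg]
    rw [this]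
    exact TPc.basis ((dvd_neg).2 h1) (by simpa using h2)
  · simpa using TPc.zero _ _
  · intro f g hf hg
    simpa using hf.add hg
  · intro c f hf
    simpa using hf.smul ((starRingEnd ℂ) c)

lemma TPc.re {L D : ℕ} {g : Tc → ℂ} (hg : TPc L D g) : TP L D (fun x => (g x).re) := by
  unfold TP
  have := (hg.add hg.conj).smul (1 / 2)
  convert this using 2 with x
  rw [Complex.add_conj]
  push_cast
  ring

lemma TPc.scale {D : ℕ} (L : ℕ) {g : Tc → ℂ} (hg : TPc 1 D g) :
    TPc L (D * L) (fun x => g ((L : ℤ) • x)) := by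
  refine TPc.induction (p := fun g => TPc L (D * L) (fun x => g ((L : ℤ) • x))) ?_ ?_ ?_ ?_ hg
  · intro n _ h2
    have : (fun x : Tc => fourier n ((L : ℤ) • x)) = fun x => fourier (n * L) x := by
      ext x; simp only [fourier_apply, mul_smul]
    rw [this]
    refine TPc.basis (Dvd.intro_left _ rfl) ?_
    rw [Int.natAbs_mul, Int.natAbs_natCast]
    exact Nat.mul_le_mul_right _ h2
  · exact TPc.zero _ _
  · intro f g hf hg; exact hf.add hg
  · intro c f hf; exact hf.smul c

lemma integrable_of_continuous {E : Type*} [NormedAddCommGroup E] {g : Tc → E}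
    (μ : Measure Tc) [IsFiniteMeasure μ] (hg : Continuous g) : Integrable g μ :=
  hg.integrable_of_hasCompactSupport (HasCompactSupport.of_compactSpace g)

lemma integral_fourier (n : ℤ) : ∫ x, fourier n x ∂hm = if n = 0 then 1 else 0 := by
  split_ifs with h
  · subst h; simp
  · exact integral_eq_zero_of_add_right_eq_neg (μ := hm)
      (fourier_add_half_inv_index h Real.two_pi_pos)

lemma TPc.indep {L D E : ℕ} {f g : Tc → ℂ} (hf : TPc 1 D f) (hg : TPc L E g) (hDL : D < L) :
    ∫ x, f x * g x ∂hm = (∫ x, f x ∂hm) * ∫ x, g x ∂hm := by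
  have key : Continuous f ∧ ∫ x, f x * g x ∂hm = (∫ x, f x ∂hm) * ∫ x, g x ∂hm := by
    refine TPc.induction
      (p := fun f => Continuous f ∧ ∫ x, f x * g x ∂hm = (∫ x, f x ∂hm) * ∫ x, g x ∂hm)
      ?_ ?_ ?_ ?_ hf
    · intro n _ h2
      refine ⟨(fourier n).continuous, ?_⟩
      have key2 : Continuous g ∧
          ∫ x, fourier n x * g x ∂hm = (∫ x, fourier n x ∂hm) * ∫ x, g x ∂hm := by
        refine TPc.induction (p := fun g => Continuous g ∧
          ∫ x, fourier n x * g x ∂hm = (∫ x, fourier n x ∂hm) * ∫ x, g x ∂hm) ?_ ?_ ?_ ?_ hg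
        · intro k k1 _
          refine ⟨(fourier k).continuous, ?_⟩
          have : (fun x : Tc => fourier n x * fourier k x) = fun x => fourier (n + k) x := by
            ext x; rw [fourier_add]
          rw [this, integral_fourier, integral_fourier, integral_fourier]
          by_cases hk : k = 0
          · subst hk; simp
          · have hnk : n + k ≠ 0 := by
              intro h
              have h3 : n = -k := by omega
              have h4 : L ≤ k.natAbs := by
                have := Int.natAbs_le_of_dvd_ne_zero k1 hk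
                simpa using this
              rw [h3, Int.natAbs_neg] at h2
              omega
            simp [hk, hnk]
        · exact ⟨continuous_const, by simp⟩
        · rintro f g ⟨cf, hf⟩ ⟨cg, hg⟩
          refine ⟨cf.add cg, ?_⟩
          simp only [mul_add]
          rw [integral_add (integrable_of_continuous _ ((fourier n).continuous.fun_mul cf))
            (integrable_of_continuous _ ((fourier n).continuous.fun_mul cg)),
            integral_add (integrable_of_continuous _ cf) (integrable_of_continuous _ cg), hf, hg]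
          ring
        · rintro c f ⟨cf, hf⟩
          refine ⟨continuous_const.mul cf, ?_⟩
          have : (fun x : Tc => fourier n x * (c * f x)) = fun x => c * (fourier n x * f x) := by
            ext x; ring
          rw [this, integral_const_mul, integral_const_mul, hf]
          ring
      exact key2.2
    · exact ⟨continuous_const, by simp⟩
    · rintro f1 f2 ⟨c1, h1⟩ ⟨c2, h2⟩
      refine ⟨c1.add c2, ?_⟩
      simp only [add_mul]
      rw [integral_add (integrable_of_continuous _ (c1.fun_mul hg.continuous))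
        (integrable_of_continuous _ (c2.fun_mul hg.continuous)),
        integral_add (integrable_of_continuous _ c1) (integrable_of_continuous _ c2), h1, h2]
      ring
    · rintro c f ⟨cf, hf⟩
      refine ⟨continuous_const.mul cf, ?_⟩
      have : (fun x : Tc => c * f x * g x) = fun x => c * (f x * g x) := by
        ext x; ring
      rw [this, integral_const_mul, integral_const_mul, hf]
      ring
  exact key.2

lemma TP.continuous {L D : ℕ} {f : Tc → ℝ} (hf : TP L D f) : Continuous f := by
  have := Complex.continuous_re.comp (TPc.continuous hf)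
  simpa [Function.comp_def] using this

lemma TP.const (L D : ℕ) (c : ℝ) : TP L D (fun _ => c) := TPc.const L D c

lemma TP.add {L D : ℕ} {f g : Tc → ℝ} (hf : TP L D f) (hg : TP L D g) :
    TP L D (fun x => f x + g x) := by
  unfold TP at *
  simpa using TPc.add hf hg

lemma TP.smul {L D : ℕ} {f : Tc → ℝ} (c : ℝ) (hf : TP L D f) : TP L D (fun x => c * f x) := by
  unfold TP at *
  simpa using TPc.smul c hf

lemma TP.sub {L D : ℕ} {f g : Tc → ℝ} (hf : TP L D f) (hg : TP L D g) :
    TP L D (fun x => f x - g x) := by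
  have := hf.add (hg.smul (-1))
  convert this using 2
  ring

lemma TP.mul {L D E : ℕ} {f g : Tc → ℝ} (hf : TP L D f) (hg : TP L E g) :
    TP L (D + E) (fun x => f x * g x) := by
  unfold TP at *
  simpa using TPc.mul hf hg

lemma TP.mono {L D L' D' : ℕ} (hL : L' ∣ L) (hD : D ≤ D') {g : Tc → ℝ} (hg : TP L D g) :
    TP L' D' g := TPc.mono hL hD hg

lemma TP.pow {L D : ℕ} {f : Tc → ℝ} (hf : TP L D f) (m : ℕ) :
    TP L (m * D) (fun x => f x ^ m) := by
  induction m with
  | zero => simpa using TP.const L 0 1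
  | succ m ih =>
    have := ih.mul hf
    simpa [pow_succ, add_mul] using this

lemma TP.scale {D : ℕ} (L : ℕ) {g : Tc → ℝ} (hg : TP 1 D g) :
    TP L (D * L) (fun x => g ((L : ℤ) • x)) := TPc.scale L hg

lemma TP.indep {L D E : ℕ} {f g : Tc → ℝ} (hf : TP 1 D f) (hg : TP L E g) (hDL : D < L) :
    ∫ x, f x * g x ∂hm = (∫ x, f x ∂hm) * ∫ x, g x ∂hm := by
  have := TPc.indep hf hg hDL
  rw [integral_complex_ofReal, integral_complex_ofReal] at this
  have h2 : (fun x => ((f x : ℂ) * (g x : ℂ))) = fun x => ((f x * g x : ℝ) : ℂ) := by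
    ext x; push_cast; rfl
  rw [h2, integral_complex_ofReal] at this
  exact_mod_cast this

lemma integral_scale {L : ℕ} (hL : L ≠ 0) {g : Tc → ℝ} (hg : Continuous g) :
    ∫ x, g ((L : ℤ) • x) ∂hm = ∫ x, g x ∂hm := by
  have hmp : MeasurePreserving (fun x : Tc => (L : ℤ) • x) hm hm :=
    Measure.measurePreserving_zsmul hm (by exact_mod_cast hL)
  conv_rhs => rw [← hmp.map_eq]
  rw [integral_map hmp.measurable.aemeasurable hg.aestronglyMeasurable]

/-- the function `cos (n x)` on the circle -/
def cs (n : ℕ) (x : Tc) : ℝ := (fourier (n : ℤ) x).re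

lemma cs_coe (n : ℕ) (x : ℝ) : cs n (x : Tc) = Real.cos (n * x) := by
  unfold cs
  rw [fourier_coe_apply]
  have : (2 * π * Complex.I * ((n : ℤ) : ℂ) * x / ((2 * π : ℝ) : ℂ)) = ((n * x : ℝ) : ℂ) * Complex.I := by
    have hp : (π : ℂ) ≠ 0 := by exact_mod_cast Real.pi_ne_zero
    push_cast
    field_simp
  rw [this, Complex.exp_ofReal_mul_I_re]

lemma TP.cs (n : ℕ) : TP n n (cs n) :=
  TPc.re (TPc.basis (dvd_refl _) (by simp))

lemma integral_cs {n : ℕ} (hn : n ≠ 0) : ∫ x, cs n x ∂hm = 0 := by
  unfold cs
  have h := integral_fourier (n : ℤ)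
  rw [if_neg (by exact_mod_cast hn)] at h
  have h2 := integral_re (𝕜 := ℂ) (μ := hm) (f := fun x : Tc => fourier (n : ℤ) x)
    (integrable_of_continuous _ (fourier _).continuous)
  rw [h] at h2
  simpa using h2

lemma abs_cs_le (n : ℕ) (x : Tc) : |cs n x| ≤ 1 := by
  induction x using QuotientAddGroup.induction_on
  rw [cs_coe]
  exact Real.abs_cos_le_one _

lemma cs_smul (n L : ℕ) (x : Tc) : cs n ((L : ℤ) • x) = cs (n * L) x := by
  unfold cs
  simp only [fourier_apply, Nat.cast_mul, mul_smul]

lemma cs_three (x : Tc) : cs 3 x = 4 * cs 1 x ^ 3 - 3 * cs 1 x := by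
  induction x using QuotientAddGroup.induction_on
  rw [cs_coe, cs_coe]
  simpa using Real.cos_three_mul _

end Pool.Agent.MP_b30265_an
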